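import Mathlib
import Pool.Agent.N502.FR.Stm

/-!
# Project FR (helper502), leaf ATN (helper866): the Taylor polynomials of the arctangent
-/

set_option autoImplicit false

open Finset

namespace Pool.Agent.N866.FR_ATN

theorem arctan_abs_le (x : ℝ) : |Real.arctan x| ≤ |x| := by
  have h := Convex.norm_image_sub_le_of_norm_deriv_le (f := Real.arctan) (C := 1) (s := Set.univ)
    (x := 0) (y := x) (fun y _ => Real.differentiableAt_arctan y) (fun y _ => by
      rw [Real.deriv_arctan, Real.norm_eq_abs, abs_of_nonneg (by positivity)]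
      rw [div_le_one (by positivity)]
      nlinarith [sq_nonneg y]) convex_univ (Set.mem_univ _) (Set.mem_univ _)
  rw [Real.arctan_zero, sub_zero, sub_zero, one_mul, Real.norm_eq_abs, Real.norm_eq_abs] at h
  exact h

theorem main : Pool.Agent.N502.FR.S_ATN := by
  intro x m hx
  rcases Nat.eq_zero_or_pos m with rfl | hm
  · simpa using arctan_abs_le x
  · have hx1 : ‖x‖ < 1 := by
      rw [Real.norm_eq_abs]
      linarith
    have h0 := Real.hasSum_arctan hx1
    have h1 := (hasSum_nat_add_iff' m).2 h0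
    have hx2 : x ^ 2 ≤ 1 / 4 := by
      have := abs_nonneg x
      rw [← sq_abs]
      nlinarith
    have hx0 : 0 ≤ x ^ 2 := sq_nonneg x
    have h2 : HasSum (fun n : ℕ => |x| ^ (2 * m + 1) * ((x ^ 2) ^ n * (1 / 3)))
        (|x| ^ (2 * m + 1) * ((1 - x ^ 2)⁻¹ * (1 / 3))) :=
      ((hasSum_geometric_of_lt_one hx0 (by linarith)).mul_right (1 / 3)).mul_left _
    have h3 := h1.norm_le_of_bounded h2 (fun n => by
      rw [norm_div, norm_mul, norm_pow, norm_pow, norm_neg, norm_one, one_pow, one_mul,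
        Real.norm_eq_abs, Real.norm_eq_abs]
      have e1 : |x| ^ (2 * (n + m) + 1) = |x| ^ (2 * m + 1) * (x ^ 2) ^ n := by
        rw [← sq_abs x, ← pow_mul, ← pow_add]
        congr 1
        ring
      have e2 : (3 : ℝ) ≤ |((2 * (n + m) + 1 : ℕ) : ℝ)| := by
        rw [abs_of_nonneg (Nat.cast_nonneg _)]
        exact_mod_cast (by omega : 3 ≤ 2 * (n + m) + 1)
      rw [e1, mul_div_assoc, div_eq_mul_inv]
      have e3 : |((2 * (n + m) + 1 : ℕ) : ℝ)|⁻¹ ≤ 1 / 3 := by
        rw [one_div]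
        exact inv_anti₀ (by norm_num) e2
      gcongr)
    have h4 : (1 - x ^ 2)⁻¹ * (1 / 3) ≤ 1 := by
      have h5 : (1 - x ^ 2)⁻¹ ≤ (3 / 4 : ℝ)⁻¹ := inv_anti₀ (by norm_num) (by linarith)
      have h6 : ((3 / 4 : ℝ))⁻¹ = 4 / 3 := by norm_num
      rw [h6] at h5
      linarith
    have h7 : |x| ^ (2 * m + 1) * ((1 - x ^ 2)⁻¹ * (1 / 3)) ≤ |x| ^ (2 * m + 1) :=
      mul_le_of_le_one_right (by positivity) h4
    have h8 : Real.arctan x - ∑ j ∈ range m, (-1 : ℝ) ^ j * x ^ (2 * j + 1) / (2 * j + 1) =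
        Real.arctan x - ∑ j ∈ range m, (-1 : ℝ) ^ j * x ^ (2 * j + 1) / ((2 * j + 1 : ℕ) : ℝ) := by
      congr 1
      refine Finset.sum_congr rfl fun j _ => ?_
      push_cast
      rfl
    rw [h8]
    exact h3.trans h7

end Pool.Agent.N866.FR_ATN
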