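import Pool.Agent.N804.GM.StmG

/-! # Project GM (helper804), part 10 (helper866): the converse in a family -/

set_option autoImplicit false

namespace Pool.Agent.N866.GM10

open Filter Topology Set MeasureTheory
open Pool.Agent.N804.GM Pool.Agent.W188.GLR

lemma den_pos {a : ℝ} (ha : 0 < a) (y : ℝ) : 0 < a ^ 2 + y ^ 2 := by positivity

lemma cauchy_eq {a : ℝ} (ha : 0 < a) (y : ℝ) :
    1 / (a ^ 2 + y ^ 2) = (a ^ 2)⁻¹ * (1 + (y / a) ^ 2)⁻¹ := by
  field_simp

lemma integrable_cauchy {a : ℝ} (ha : 0 < a) : Integrable (fun y : ℝ => 1 / (a ^ 2 + y ^ 2)) := by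
  have h1 := (integrable_inv_one_add_sq.comp_div ha.ne').const_mul (a ^ 2)⁻¹
  refine h1.congr (Eventually.of_forall fun y => ?_)
  exact (cauchy_eq ha y).symm

lemma integral_cauchy {a : ℝ} (ha : 0 < a) : ∫ y : ℝ, 1 / (a ^ 2 + y ^ 2) = Real.pi / a := by
  have h1 : ∀ y : ℝ, 1 / (a ^ 2 + y ^ 2) = (a ^ 2)⁻¹ * (fun z : ℝ => (1 + z ^ 2)⁻¹) (y / a) :=
    fun y => cauchy_eq ha y
  rw [integral_congr_ae (Eventually.of_forall h1), integral_const_mul,
    Measure.integral_comp_div (fun z : ℝ => (1 + z ^ 2)⁻¹) a, integral_univ_inv_one_add_sq,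
    smul_eq_mul, abs_of_pos ha]
  field_simp

lemma integrable_logc {a : ℝ} (ha : 0 < a) :
    Integrable (fun y : ℝ => Real.log (1 + |y|) / (a ^ 2 + y ^ 2)) := by
  have h0 : Integrable (fun y : ℝ => (1 + ‖y‖) ^ (-(3 / 2) : ℝ)) := by
    refine integrable_one_add_norm ?_
    rw [Module.finrank_self]
    norm_num
  have h1 := h0.const_mul (4 * (1 + 1 / a ^ 2))
  refine h1.mono' ?_ (Eventually.of_forall fun y => ?_)
  · refine Continuous.aestronglyMeasurable ?_
    refine Continuous.div ?_ (by fun_prop) fun y => (den_pos ha y).ne'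
    refine Continuous.log (by fun_prop) fun y => ?_
    have := abs_nonneg y
    positivity
  · have hy : 0 ≤ |y| := abs_nonneg y
    have h2 : 0 ≤ Real.log (1 + |y|) := Real.log_nonneg (by linarith)
    rw [Real.norm_eq_abs, abs_of_nonneg (div_nonneg h2 (den_pos ha y).le), Real.norm_eq_abs]
    have h3 : Real.log (1 + |y|) ≤ 2 * (1 + |y|) ^ (1 / 2 : ℝ) := by
      have h4 := Real.log_le_rpow_div (x := 1 + |y|) (ε := 1 / 2) (by positivity) (by norm_num)
      linarith
    have h5 : 1 / (a ^ 2 + y ^ 2) ≤ 2 * (1 + 1 / a ^ 2) / (1 + |y|) ^ 2 := by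
      rw [div_le_div_iff₀ (den_pos ha y) (by positivity)]
      have h6 : 2 * (1 + 1 / a ^ 2) * (a ^ 2 + y ^ 2) =
          2 * a ^ 2 + 2 * y ^ 2 + 2 + 2 * (y ^ 2 / a ^ 2) := by
        field_simp
        ring
      rw [h6]
      have h7 : 0 ≤ y ^ 2 / a ^ 2 := by positivity
      have h8 : |y| ^ 2 = y ^ 2 := sq_abs y
      nlinarith [sq_nonneg (1 - |y|)]
    have h9 : (1 + |y|) ^ (-(3 / 2) : ℝ) = (1 + |y|) ^ (1 / 2 : ℝ) / (1 + |y|) ^ 2 := by
      rw [← Real.rpow_natCast (1 + |y|) 2, ← Real.rpow_sub (by positivity)]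
      norm_num
    calc Real.log (1 + |y|) / (a ^ 2 + y ^ 2) = Real.log (1 + |y|) * (1 / (a ^ 2 + y ^ 2)) := by
          ring
      _ ≤ (2 * (1 + |y|) ^ (1 / 2 : ℝ)) * (2 * (1 + 1 / a ^ 2) / (1 + |y|) ^ 2) := by
          refine mul_le_mul h3 h5 ?_ ?_
          · exact (one_div_pos.2 (den_pos ha y)).le
          · positivity
      _ = 4 * (1 + 1 / a ^ 2) * (1 + |y|) ^ (-(3 / 2) : ℝ) := by
          rw [h9]
          ring

theorem main : S_GC := by
  intro ι m N mu f X δ a H ha hL ε hε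
  have hpi := Real.pi_pos
  set ε' : ℝ := ε * a / (4 * Real.pi) with hε'
  have hε'0 : 0 < ε' := by positivity
  obtain ⟨C, hC⟩ := hL ε' hε'0
  set C' : ℝ := max C 1 with hC'
  have hC'1 : 1 ≤ C' := le_max_right _ _
  have hlC : 0 ≤ Real.log C' := Real.log_nonneg hC'1
  set K : ℝ := ∫ y : ℝ, Real.log (1 + |y|) / (a ^ 2 + y ^ 2) with hK
  set Y : ℝ := (Real.pi / a * Real.log C' + ε' * K) * (4 / (3 * ε)) with hY
  refine ⟨Real.exp Y, fun i t hX => ?_⟩
  have hX1 := H.X1 i t
  have hXp : 0 < X i t := by linarith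
  have hlX : 0 ≤ Real.log (X i t) := Real.log_nonneg hX1
  have hYX : Y ≤ Real.log (X i t) := (Real.le_log_iff_exp_le hXp).2 hX
  unfold PM
  by_cases hint : Integrable (fun u : ℝ =>
      Real.log ‖f i (1 / 2 + u * Complex.I)‖ / (a ^ 2 + (u - t) ^ 2))
  · have hb : ∀ u : ℝ, Real.log ‖f i (1 / 2 + u * Complex.I)‖ ≤
        Real.log C' + ε' * (Real.log (X i t) + Real.log (1 + |u - t|)) := by
      intro u
      have h1 : 0 ≤ Real.log (1 + |u - t|) := Real.log_nonneg (by linarith [abs_nonneg (u - t)])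
      rcases eq_or_lt_of_le (norm_nonneg (f i (1 / 2 + u * Complex.I))) with h2 | h2
      · rw [← h2, Real.log_zero]
        positivity
      · have h3 := hC i u
        have hXu : 0 < X i u := by linarith [H.X1 i u]
        have h4 := H.Xsh i t (u - t)
        rw [add_sub_cancel] at h4
        have h5 : ‖f i (1 / 2 + u * Complex.I)‖ ≤ C' * X i u ^ ε' :=
          h3.trans (mul_le_mul_of_nonneg_right (le_max_left _ _) (Real.rpow_nonneg hXu.le _))
        have h6 := Real.log_le_log h2 h5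
        rw [Real.log_mul (by linarith) (Real.rpow_pos_of_pos hXu _).ne', Real.log_rpow hXu] at h6
        have h7 := Real.log_le_log hXu h4
        rw [Real.log_mul (by positivity) hXp.ne'] at h7
        nlinarith
    have hi1 : Integrable (fun u : ℝ => 1 / (a ^ 2 + (u - t) ^ 2)) :=
      (integrable_cauchy ha).comp_sub_right t
    have hi2 : Integrable (fun u : ℝ => Real.log (1 + |u - t|) / (a ^ 2 + (u - t) ^ 2)) :=
      (integrable_logc ha).comp_sub_right t
    have hv1 : ∫ u : ℝ, 1 / (a ^ 2 + (u - t) ^ 2) = Real.pi / a := by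
      rw [integral_sub_right_eq_self (fun y : ℝ => 1 / (a ^ 2 + y ^ 2)) t, integral_cauchy ha]
    have hv2 : ∫ u : ℝ, Real.log (1 + |u - t|) / (a ^ 2 + (u - t) ^ 2) = K := by
      rw [integral_sub_right_eq_self (fun y : ℝ => Real.log (1 + |y|) / (a ^ 2 + y ^ 2)) t]
    have hle : ∫ u : ℝ, Real.log ‖f i (1 / 2 + u * Complex.I)‖ / (a ^ 2 + (u - t) ^ 2) ≤
        ∫ u : ℝ, ((Real.log C' + ε' * Real.log (X i t)) * (1 / (a ^ 2 + (u - t) ^ 2)) +
          ε' * (Real.log (1 + |u - t|) / (a ^ 2 + (u - t) ^ 2))) := by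
      refine integral_mono hint ((hi1.const_mul _).add (hi2.const_mul _)) fun u => ?_
      have h1 := den_pos ha (u - t)
      change Real.log ‖f i (1 / 2 + u * Complex.I)‖ / (a ^ 2 + (u - t) ^ 2) ≤
        (Real.log C' + ε' * Real.log (X i t)) * (1 / (a ^ 2 + (u - t) ^ 2)) +
          ε' * (Real.log (1 + |u - t|) / (a ^ 2 + (u - t) ^ 2))
      have h2 : (Real.log C' + ε' * Real.log (X i t)) * (1 / (a ^ 2 + (u - t) ^ 2)) +
          ε' * (Real.log (1 + |u - t|) / (a ^ 2 + (u - t) ^ 2)) =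
          (Real.log C' + ε' * (Real.log (X i t) + Real.log (1 + |u - t|))) /
            (a ^ 2 + (u - t) ^ 2) := by
        ring
      rw [h2]
      exact div_le_div_of_nonneg_right (hb u) h1.le
    rw [integral_add (hi1.const_mul _) (hi2.const_mul _), integral_const_mul, integral_const_mul,
      hv1, hv2] at hle
    refine hle.trans ?_
    have h1 : Real.pi / a * Real.log C' + ε' * K ≤ 3 * ε / 4 * Real.log (X i t) := by
      have h2 : Real.pi / a * Real.log C' + ε' * K = 3 * ε / 4 * Y := by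
        rw [hY]
        field_simp
      rw [h2]
      exact mul_le_mul_of_nonneg_left hYX (by positivity)
    have h3 : ε' * (Real.pi / a) = ε / 4 := by
      rw [hε']
      field_simp
    have h4 : (Real.log C' + ε' * Real.log (X i t)) * (Real.pi / a) + ε' * K =
        (Real.pi / a * Real.log C' + ε' * K) + (ε' * (Real.pi / a)) * Real.log (X i t) := by
      ring
    rw [h4, h3]
    linarith
  · rw [integral_undef hint]
    positivity

end Pool.Agent.N866.GM10
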