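import Pool.Agent.N804.GM.Stm
import Pool.Agent.N799.SP.ZF
import Pool.Agent.N799.LH.Conv

/-! # Project GM (helper804), parts 5 and 7 (helper866): upper bounds for the horizontal means -/

set_option autoImplicit false

namespace Pool.Agent.N866.GM5

open Filter Topology Set MeasureTheory
open Pool.Agent.N804.GM Pool.Agent.N799.SP

/-- near the pole -/
lemma near_pole : ∃ C : ℝ, 1 ≤ C ∧ ∀ σ u : ℝ, 1 / 2 ≤ σ → σ < 1 → |u| ≤ 1 →
    ‖riemannZeta (σ + u * Complex.I)‖ ≤ C / (1 - σ) := by
  let F : ℂ → ℂ := Function.update (fun s : ℂ => (s - 1) * riemannZeta s) 1 1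
  have hF : Continuous F := by
    rw [continuous_iff_continuousAt]
    intro s
    by_cases hs : s = 1
    · subst hs
      rw [continuousAt_update_same]
      exact riemannZeta_residue_one
    · have h1 : ContinuousAt (fun s : ℂ => (s - 1) * riemannZeta s) s :=
        (continuousAt_id.sub continuousAt_const).mul
          (differentiableAt_riemannZeta hs).continuousAt
      exact (continuousAt_update_of_ne hs).2 h1
  obtain ⟨C, hC⟩ := ((isCompact_closedBall (1 : ℂ) 2).image hF).isBounded.exists_norm_le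
  refine ⟨max C 1, le_max_right _ _, fun σ u h1 h2 h3 => ?_⟩
  set s : ℂ := σ + u * Complex.I with hs
  have hre : s.re = σ := by simp [hs]
  have him : s.im = u := by simp [hs]
  have hs1 : s ≠ 1 := by
    intro h
    rw [h, Complex.one_re] at hre
    linarith
  have hb : s ∈ Metric.closedBall (1 : ℂ) 2 := by
    rw [Metric.mem_closedBall, dist_eq_norm]
    refine (Complex.norm_le_abs_re_add_abs_im _).trans ?_
    rw [Complex.sub_re, Complex.sub_im, hre, him, Complex.one_re, Complex.one_im, sub_zero]
    have h4 : |σ - 1| ≤ 1 := by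
      rw [abs_le]
      constructor <;> linarith
    linarith
  have h4 := hC (F s) ⟨s, hb, rfl⟩
  have h5 : F s = (s - 1) * riemannZeta s := Function.update_of_ne hs1 _ _
  rw [h5, norm_mul] at h4
  have h6 : 1 - σ ≤ ‖s - 1‖ := by
    have h7 := Complex.abs_re_le_norm (s - 1)
    rw [Complex.sub_re, hre, Complex.one_re] at h7
    have h8 := neg_abs_le (σ - 1)
    linarith
  rw [le_div_iff₀ (by linarith)]
  calc ‖riemannZeta s‖ * (1 - σ) ≤ ‖riemannZeta s‖ * ‖s - 1‖ :=
        mul_le_mul_of_nonneg_left h6 (norm_nonneg _)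
    _ = ‖s - 1‖ * ‖riemannZeta s‖ := mul_comm _ _
    _ ≤ max C 1 := h4.trans (le_max_left _ _)

/-- far from the pole -/
lemma far_pole : ∃ C : ℝ, 1 ≤ C ∧ ∀ σ u : ℝ, 1 / 2 ≤ σ → 1 ≤ |u| →
    ‖riemannZeta (σ + u * Complex.I)‖ ≤ C * |u| ^ 2 := by
  obtain ⟨C, hC, h⟩ := zeta_growth
  refine ⟨C, hC, fun σ u h1 h2 => ?_⟩
  have key : ∀ v : ℝ, 1 ≤ v → ‖riemannZeta (σ + v * Complex.I)‖ ≤ C * v ^ 2 := by
    intro v hv
    have h3 := h (σ + v * Complex.I) (by simp; linarith) (by simpa using hv)
    simpa using h3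
  rcases le_total 0 u with h3 | h3
  · rw [abs_of_nonneg h3] at h2 ⊢
    exact key u h2
  · rw [abs_of_nonpos h3] at h2 ⊢
    have h4 := key (-u) h2
    have h5 : (σ + ((-u : ℝ) : ℂ) * Complex.I : ℂ) = (starRingEnd ℂ) (σ + u * Complex.I) := by
      rw [map_add, map_mul, Complex.conj_ofReal, Complex.conj_ofReal, Complex.conj_I]
      push_cast
      ring
    rw [h5, norm_zeta_conj] at h4
    exact h4

/-- comparison of the horizontal means -/
lemma HH_le {u : ℝ} {g : ℝ → ℝ} (hg : IntervalIntegrable g volume (1 / 2) 1)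
    (hg0 : 0 ≤ ∫ σ in (1 / 2 : ℝ)..1, g σ)
    (h : ∀ σ : ℝ, 1 / 2 ≤ σ → σ < 1 → Real.log ‖riemannZeta (σ + u * Complex.I)‖ ≤ g σ) :
    HH u ≤ ∫ σ in (1 / 2 : ℝ)..1, g σ := by
  unfold HH
  by_cases hint : IntervalIntegrable
      (fun σ : ℝ => Real.log ‖riemannZeta (σ + u * Complex.I)‖) volume (1 / 2) 1
  · exact intervalIntegral.integral_mono_on_of_le_Ioo (by norm_num) hint hg
      fun σ hσ => h σ hσ.1.le hσ.2
  · rw [intervalIntegral.integral_undef hint]
    exact hg0

theorem hu : S_HU := by
  obtain ⟨C1, hC1, h1⟩ := near_pole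
  obtain ⟨C2, hC2, h2⟩ := far_pole
  have hl1 : 0 ≤ Real.log C1 := Real.log_nonneg hC1
  have hl2 : 0 ≤ Real.log C2 := Real.log_nonneg hC2
  have hli : IntervalIntegrable (fun σ : ℝ => Real.log (1 - σ)) volume (1 / 2) 1 := by
    have h3 : IntervalIntegrable Real.log volume (1 / 2) 0 := intervalIntegral.intervalIntegrable_log'
    have h4 := h3.comp_sub_left 1
    norm_num at h4
    exact h4
  have hgi : IntervalIntegrable (fun σ : ℝ => Real.log C1 - Real.log (1 - σ)) volume (1 / 2) 1 :=
    intervalIntegrable_const.sub hli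
  set K : ℝ := ∫ σ in (1 / 2 : ℝ)..1, (Real.log C1 - Real.log (1 - σ)) with hK
  have hK0 : 0 ≤ K := by
    refine intervalIntegral.integral_nonneg (by norm_num) fun σ hσ => ?_
    have h3 : Real.log (1 - σ) ≤ 0 := Real.log_nonpos (by linarith [hσ.2]) (by linarith [hσ.1])
    linarith
  refine ⟨K + Real.log C2 + 2, by positivity, fun u => ?_⟩
  have hlu : 0 ≤ Real.log (1 + |u|) := Real.log_nonneg (by linarith [abs_nonneg u])
  rcases le_total |u| 1 with h3 | h3
  · have h4 : HH u ≤ K := by
      refine HH_le hgi hK0 fun σ ha hb => ?_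
      have h5 := h1 σ u ha hb h3
      have h6 : Real.log (1 - σ) ≤ 0 := Real.log_nonpos (by linarith) (by linarith)
      rcases eq_or_lt_of_le (norm_nonneg (riemannZeta (σ + u * Complex.I))) with h7 | h7
      · rw [← h7, Real.log_zero]
        linarith
      · have h8 := Real.log_le_log h7 h5
        rw [Real.log_div (by linarith) (by linarith)] at h8
        exact h8
    nlinarith
  · have h4 : HH u ≤ ∫ σ in (1 / 2 : ℝ)..1, (Real.log C2 + 2 * Real.log |u|) := by
      have hlu' : 0 ≤ Real.log |u| := Real.log_nonneg h3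
      refine HH_le intervalIntegrable_const ?_ fun σ ha hb => ?_
      · rw [intervalIntegral.integral_const, smul_eq_mul]
        have h9 : 0 ≤ Real.log C2 + 2 * Real.log |u| := by linarith
        exact mul_nonneg (by norm_num) h9
      · have h5 := h2 σ u ha h3
        rcases eq_or_lt_of_le (norm_nonneg (riemannZeta (σ + u * Complex.I))) with h7 | h7
        · rw [← h7, Real.log_zero]
          positivity
        · have h8 := Real.log_le_log h7 h5
          rw [Real.log_mul (by linarith) (by positivity), Real.log_pow] at h8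
          push_cast at h8
          exact h8
    rw [intervalIntegral.integral_const, smul_eq_mul] at h4
    have h5 : Real.log |u| ≤ Real.log (1 + |u|) :=
      Real.log_le_log (by linarith) (by linarith)
    have h6 : (1 - 1 / 2 : ℝ) * (Real.log C2 + 2 * Real.log |u|) =
        Real.log C2 / 2 + Real.log |u| := by ring
    rw [h6] at h4
    nlinarith

theorem ch : S_CH := by
  intro hL ε hε
  obtain ⟨η, A, t₀, hη, ht₀, h⟩ := Pool.Agent.N799.LH.right_of_line ε 1 hε one_pos
  obtain ⟨C, hC⟩ := hL (η / 2) (by positivity)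
  set C' : ℝ := max C 1 with hC'
  have hC'1 : 1 ≤ C' := le_max_right _ _
  have hlC : 0 ≤ Real.log C' := Real.log_nonneg hC'1
  refine ⟨max t₀ (max (1 + |A|) (Real.exp (2 / η * Real.log C' + Real.log 2))), fun t ht => ?_⟩
  have ht1 : t₀ ≤ t := (le_max_left _ _).trans ht
  have ht2 : 1 + |A| ≤ t := ((le_max_left _ _).trans (le_max_right _ _)).trans ht
  have ht3 : Real.exp (2 / η * Real.log C' + Real.log 2) ≤ t :=
    ((le_max_right _ _).trans (le_max_right _ _)).trans ht
  have htp : 0 < t := by linarith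
  have ht4 := (Real.le_log_iff_exp_le htp).2 ht3
  have hlt : 0 ≤ Real.log t := Real.log_nonneg (by linarith)
  have hSL : Pool.Agent.N799.LH.SL η A t := by
    intro y hy
    have h1 := hC y
    have h2 : (⟨1 / 2, y⟩ : ℂ) = 1 / 2 + y * Complex.I := by
      apply Complex.ext <;> simp
    rw [h2]
    refine h1.trans ?_
    have h3 : |y| ≤ t + |A| := by
      have h4 : |y| ≤ |y - t| + |t| := by
        have := abs_add_le (y - t) t
        rwa [sub_add_cancel] at this
      rw [abs_of_pos htp] at h4
      linarith [hy.trans (le_abs_self A)]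
    have h4 : 1 + |y| ≤ 2 * t := by linarith
    have h5 : (1 + |y|) ^ (η / 2) ≤ (2 * t) ^ (η / 2) :=
      Real.rpow_le_rpow (by positivity) h4 (by positivity)
    have h6 : C * (1 + |y|) ^ (η / 2) ≤ C' * (2 * t) ^ (η / 2) :=
      mul_le_mul (le_max_left _ _) h5 (by positivity) (by linarith)
    refine h6.trans ?_
    rw [Real.rpow_def_of_pos (by positivity), Real.log_mul (by norm_num) htp.ne']
    have h7 : C' * Real.exp ((Real.log 2 + Real.log t) * (η / 2)) =
        Real.exp (Real.log C' + (Real.log 2 + Real.log t) * (η / 2)) := by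
      rw [Real.exp_add, Real.exp_log (by linarith)]
    rw [h7]
    refine Real.exp_le_exp.2 ?_
    have h8 : η / 2 * (2 / η * Real.log C' + Real.log 2) ≤ η / 2 * Real.log t :=
      mul_le_mul_of_nonneg_left ht4 (by positivity)
    have h9 : η / 2 * (2 / η * Real.log C' + Real.log 2) =
        Real.log C' + η / 2 * Real.log 2 := by
      field_simp
    rw [h9] at h8
    linarith
  have hb := h t ht1 hSL
  have h4 : HH t ≤ ∫ σ in (1 / 2 : ℝ)..1, ε * Real.log t := by
    refine HH_le intervalIntegrable_const ?_ fun σ ha _ => ?_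
    · rw [intervalIntegral.integral_const, smul_eq_mul]
      have h9 : 0 ≤ ε * Real.log t := mul_nonneg hε.le hlt
      exact mul_nonneg (by norm_num) h9
    · have h5 := hb (σ + t * Complex.I) (by simpa using ha) (by simp)
      rcases eq_or_lt_of_le (norm_nonneg (riemannZeta (σ + t * Complex.I))) with h7 | h7
      · rw [← h7, Real.log_zero]
        exact mul_nonneg hε.le hlt
      · have h8 := Real.log_le_log h7 h5
        rwa [Real.log_exp] at h8
  rw [intervalIntegral.integral_const, smul_eq_mul] at h4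
  have h5 : 0 ≤ ε * Real.log t := mul_nonneg hε.le hlt
  linarith

end Pool.Agent.N866.GM5
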