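import Pool.Agent.N912.EL.Stm2

/-!
Project EL (helper912), task EL/13: Halasz's theorem for arbitrary completely multiplicative
functions of the elements of a quadratic order. Port of `N912/HL/H5` (helper866).
-/

set_option autoImplicit false

namespace Pool.Agent.N866.EL

open Finset Filter Topology
open Pool.Agent.W78.GA
open Pool.Agent.W78.EG
open Pool.Agent.W251.GX (Cm)
open Pool.Agent.H304R3.HK (Lg)
open Pool.Agent.W584.EG (rr aL_le sum_rr sum_ball uc_pos phi_le phi_pow)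
open Pool.Agent.W738.EG (CG)
open Pool.Agent.N912.HL
open Pool.Agent.N912.EL (MG S_LGK FarK S_APK)
open scoped ArithmeticFunction.vonMangoldt

variable {t c : ℤ} {f : ℕ} {χ : DirichletCharacter ℂ f}

theorem hs_ofK (hD : t ^ 2 < 4 * c) {G : Qd t c → ℂ} (hG : MG G) {g : ℕ → ℂ}
    (hLg : Lg (aL G) g) : Hs (rr t c) (aL G) (fun n => (Λ n : ℂ) * g n) where
  zero := hLg.b0
  one := hLg.b1
  le := fun n => aL_le hD hG.le n
  Lle := fun n => by
    rw [norm_mul, Complex.norm_real,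
      Real.norm_of_nonneg ArithmeticFunction.vonMangoldt_nonneg, mul_comm]
    exact mul_le_mul_of_nonneg_right (hLg.cd n) ArithmeticFunction.vonMangoldt_nonneg
  conv := by
    funext n
    rw [LSeries.convolution_def]
    show aL G n * (Real.log n : ℂ) = ∑ p ∈ n.divisorsAntidiagonal,
      aL G p.1 * ((Λ p.2 : ℂ) * g p.2)
    rcases Nat.eq_zero_or_pos n with h0 | h0
    · subst h0; simp
    rw [Nat.sum_divisorsAntidiagonal' (f := fun u d => aL G u * ((Λ d : ℂ) * g d)),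
      hLg.lg n h0.ne']
    refine sum_congr rfl fun d hd => ?_
    ring

theorem deficitK (hD : t ^ 2 < 4 * c) (G : Qd t c → ℂ) (y : ℝ) {p : ℕ} (hp : p.Prime) :
    gg (rr t c) (aL G) 0 y p = (p : ℝ) ^ (-(1 : ℝ)) *
      ((∑ z ∈ (ball t c (p : ℝ)).filter (fun z => nm z = p),
        (1 - (G z * (p : ℂ) ^ (-(y * Complex.I))).re)) / uc t c) := by
  have h := deficit hD (φ := G) (F := fun _ => 1) y hp
  simpa only [one_mul] using h

theorem gg_powK (hD : t ^ 2 < 4 * c) {M N : ℕ} (hM : 1 ≤ M) {φ : Qd t c → ℂ} (H : HCh M φ)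
    {F : Qd t c → ℂ} (hF : ∀ z, F z ^ N = 1) (hN : 1 ≤ N) (y : ℝ) {p : ℕ} (hp : p.Prime)
    (hpM : ¬ p ∣ M) :
    gg (rr t c) (fun n => (1 : ℂ) * aL (fun z => φ z ^ N) n) 0 (N * y) p ≤
      (N : ℝ) ^ 2 * gg (rr t c) (aL (fun z => F z * φ z)) 0 y p := by
  have hu : (0 : ℝ) < uc t c := by exact_mod_cast uc_pos hD
  rw [deficit hD (F := fun _ => 1) _ hp, deficitK hD _ _ hp]
  have h0 : (0 : ℝ) ≤ (p : ℝ) ^ (-(1 : ℝ)) := by positivity
  have h1 : ∑ z ∈ (ball t c (p : ℝ)).filter (fun z => nm z = p),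
        (1 - ((1 : ℂ) * φ z ^ N * (p : ℂ) ^ (-(((N * y : ℝ) : ℂ) * Complex.I))).re) ≤
      (N : ℝ) ^ 2 * ∑ z ∈ (ball t c (p : ℝ)).filter (fun z => nm z = p),
        (1 - (F z * φ z * (p : ℂ) ^ (-(y * Complex.I))).re) := by
    rw [mul_sum]
    refine sum_le_sum fun z hz => ?_
    have hzp := (mem_filter.1 hz).2
    have h2 : ‖F z * φ z * (p : ℂ) ^ (-(y * Complex.I))‖ = 1 := by
      rw [norm_mul, norm_mul, norm_u hp.pos, phi_one hM H (cop_of_prime hD hp hpM hzp),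
        Complex.norm_eq_one_of_pow_eq_one (hF z) (by omega)]
      norm_num
    have h3 := pow_dist h2 N
    rw [mul_pow, mul_pow, hF z, ← Complex.cpow_nat_mul] at h3
    have h4 : ((N : ℕ) : ℂ) * -((y : ℂ) * Complex.I) = -(((N * y : ℝ) : ℂ) * Complex.I) := by
      push_cast; ring
    rw [h4] at h3
    exact h3
  calc _ ≤ (p : ℝ) ^ (-(1 : ℝ)) * (((N : ℝ) ^ 2 *
      ∑ z ∈ (ball t c (p : ℝ)).filter (fun z => nm z = p),
        (1 - (F z * φ z * (p : ℂ) ^ (-(y * Complex.I))).re)) / uc t c) :=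
        mul_le_mul_of_nonneg_left (div_le_div_of_nonneg_right h1 hu.le) h0
    _ = _ := by ring

theorem np_ofK (hF : Fd t c f χ) {N : ℕ} (hN : 1 ≤ N) {F : Qd t c → ℂ} (hFp : ∀ z, F z ^ N = 1)
    (hfar : FarK t c N F) {M : ℕ} (hM : 1 ≤ M) {φ : Qd t c → ℂ} (H : HCh M φ) :
    NP (rr t c) (aL (fun z => F z * φ z)) := by
  have hD := Pool.Agent.W251.EG.hDG hF
  intro y hsum
  have h1 : Summable (gg (rr t c) (fun n => (1 : ℂ) * aL (fun z => φ z ^ N) n) 0 (N * y)) := by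
    refine summ_of_prime hM (fun n => gg_nonneg (fun n => ?_) _ _ n) (fun n hn => gg_zero hn)
      (fun p hp hpM => gg_powK hD hM H hFp hN y hp hpM) hsum
    rw [norm_mul, norm_one, one_mul]
    exact aL_le hD (phi_le hM (hch_pow H hN)) n
  by_cases hc : N * y ≠ 0 ∨ ∃ z, φ z ^ N ≠ 0 ∧ φ z ^ N ≠ 1
  · exact char_far hF hM (hch_pow H hN) _ hc h1
  · push Not at hc
    have hy : y = 0 := by
      rcases mul_eq_zero.1 hc.1 with h2 | h2
      · exfalso
        have : N = 0 := by exact_mod_cast h2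
        omega
      · exact h2
    rw [hy] at hsum
    exact hfar M φ hM H (fun z hz => hc.2 z (pow_ne_zero _ hz)) hsum

/-- the twists of `F` by the characters -/
theorem mg_twist {N : ℕ} (hN : 1 ≤ N) {F : Qd t c → ℂ} (hG : MG F) {M : ℕ} (hM : 1 ≤ M)
    {φ : Qd t c → ℂ} (H : HCh M φ) : MG (fun z => F z * φ z) where
  mul := fun z w hz hw => by
    beta_reduce
    rw [hG.mul z w hz hw, H.mul]
    ring
  unit := fun u hu => by
    beta_reduce
    rw [hG.unit u hu, H.unit u hu, one_mul]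
  le := fun z => by
    rw [norm_mul]
    exact mul_le_one₀ (hG.le z) (norm_nonneg _) (phi_le hM H z)

/-- **Halasz's theorem over a quadratic order** -/
theorem cg_ofK (hF : Fd t c f χ) (hL : S_LGK t c) {N : ℕ} (hN : 1 ≤ N) {F : Qd t c → ℂ}
    (hG : MG F) (hFp : ∀ z, F z ^ N = 1) (hfar : FarK t c N F) : CG F := by
  have hD := Pool.Agent.W251.EG.hDG hF
  have hFn : ∀ z, ‖F z‖ = 1 := fun z => Complex.norm_eq_one_of_pow_eq_one (hFp z) (by omega)
  obtain ⟨ρ, C, hρ, hr⟩ := rm_rr (t := t) (c := c) hD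
  obtain ⟨L₁, h₁⟩ := hs_one hF
  refine ⟨hG.mul, hFn, fun u z hu => ?_, fun M φ hM H ε hε => ?_⟩
  · by_cases hz : z = 0
    · rw [hz, mul_zero]
    · have hu0 : u ≠ 0 := by
        rintro rfl
        have : nm (0 : Qd t c) = 0 := by simp [nm]
        omega
      rw [hG.mul u z hu0 hz, hG.unit u hu, one_mul]
  · have hGG := mg_twist hN hG hM H
    obtain ⟨g, hLg⟩ := hL _ hGG
    have key := (hs_ofK hD hGG hLg).halasz h₁ hr (np_ofK hF hN hFp hfar hM H)
    have hup : (0 : ℝ) < uc t c := by exact_mod_cast uc_pos hD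
    have e1 := key.eventually (Metric.ball_mem_nhds 0
      (show (0 : ℝ) < ε / uc t c by positivity))
    obtain ⟨N₁, hN₁⟩ := Filter.eventually_atTop.1 e1
    refine ⟨(N₁ : ℝ) + 1, fun X hX => ?_⟩
    have hX1 : (1 : ℝ) ≤ X := by linarith [(Nat.cast_nonneg N₁ : (0 : ℝ) ≤ N₁)]
    have hfl : N₁ ≤ ⌊X⌋₊ := Nat.le_floor (by linarith)
    have hfl1 : 1 ≤ ⌊X⌋₊ := Nat.le_floor (by exact_mod_cast hX1)
    have hfl0 : (0 : ℝ) < (⌊X⌋₊ : ℝ) := by exact_mod_cast hfl1
    have h3 := hN₁ ⌊X⌋₊ hfl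
    rw [dist_zero_right, norm_div, Complex.norm_natCast, div_lt_iff₀ hfl0] at h3
    rw [sum_ball hD]
    have huc : (uc t c : ℂ) ≠ 0 := by
      have := (uc_pos hD).ne'
      exact_mod_cast this
    have e3 : ∀ k ∈ Icc 1 ⌊X⌋₊, ∑ z ∈ (ball t c (k : ℝ)).filter (fun z => nm z = k),
        F z * φ z = (uc t c : ℂ) * aL (fun z => F z * φ z) k := by
      intro k _
      unfold aL
      field_simp
    rw [Finset.sum_congr rfl e3, ← Finset.mul_sum, norm_mul, Complex.norm_natCast]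
    have h7 : (uc t c : ℝ) * ‖∑ k ∈ Icc 1 ⌊X⌋₊, aL (fun z => F z * φ z) k‖ ≤
        (uc t c : ℝ) * (ε / uc t c * (⌊X⌋₊ : ℝ)) := mul_le_mul_of_nonneg_left h3.le hup.le
    refine h7.trans ?_
    have h8 : (uc t c : ℝ) * (ε / uc t c * (⌊X⌋₊ : ℝ)) = ε * (⌊X⌋₊ : ℝ) := by field_simp
    rw [h8]
    exact mul_le_mul_of_nonneg_left (Nat.floor_le (by linarith)) hε.le

/-- **EL/13**: Halasz's theorem for arbitrary completely multiplicative functions -/
theorem apk {t c : ℤ} {f : ℕ} {χ : DirichletCharacter ℂ f} (hF : Fd t c f χ) (hL : S_LGK t c) :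
    S_APK t c := by
  intro N F hN hG hFp hfar
  have hD := Pool.Agent.W251.EG.hDG hF
  exact ⟨⟨hN, hG.mul, hFp⟩, fun M r₁ r₂ hM ε hε =>
    Pool.Agent.W738.EG.main hD (Pool.Agent.W290.EG.pid hF) (cg_ofK hF hL hN hG hFp hfar) M r₁ r₂ hM
      ε hε⟩

end Pool.Agent.N866.EL
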