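import Mathlib
import Pool.Agent.N484.KP.Stm
set_option autoImplicit false

/-! KP/LOW: lower bound for the norm of the sum of the centred boxes. -/

namespace Pool.Agent.N484.KP

open MeasureTheory Set
open scoped ENNReal

theorem low_real {d : ℕ} (hd : 1 ≤ d) {q κ N m : ℝ} (hq : 1 < q) (hκ : 0 < κ) (hN : 1 ≤ N)
    (hm : κ * N ^ d ≤ m) :
    N ^ (((d : ℝ) + 2) / q) * m ^ (1 - 1 / (q * d)) ≤
      κ ^ (-(1 / (q * d))) * (m * N ^ (((d : ℝ) + 1) / q)) := by
  have hN0 : 0 < N := by linarith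
  have hd0 : (0 : ℝ) < d := by exact_mod_cast hd
  have hq0 : 0 < q := by linarith
  have hm0 : 0 < m := lt_of_lt_of_le (by positivity) hm
  set t : ℝ := 1 / (q * d) with ht
  have ht0 : 0 < t := by positivity
  have h1 : N ^ (1 / q) ≤ m ^ t * κ ^ (-t) := by
    have h2 : N ^ d ≤ m / κ := by rw [le_div_iff₀ hκ]; linarith
    have h3 : N ^ (1 / q) = (N ^ d) ^ t := by
      rw [← Real.rpow_natCast, ← Real.rpow_mul hN0.le]
      congr 1
      rw [ht]; field_simp
    rw [h3, Real.rpow_neg hκ.le, ← div_eq_mul_inv, ← Real.div_rpow hm0.le hκ.le]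
    exact Real.rpow_le_rpow (by positivity) h2 ht0.le
  have h4 : N ^ (((d : ℝ) + 2) / q) = N ^ (((d : ℝ) + 1) / q) * N ^ (1 / q) := by
    rw [← Real.rpow_add hN0]; congr 1; ring
  have h5 : m ^ t * m ^ (1 - t) = m := by
    rw [← Real.rpow_add hm0, add_sub_cancel, Real.rpow_one]
  calc N ^ (((d : ℝ) + 2) / q) * m ^ (1 - t)
      = N ^ (((d : ℝ) + 1) / q) * N ^ (1 / q) * m ^ (1 - t) := by rw [h4]
    _ ≤ N ^ (((d : ℝ) + 1) / q) * (m ^ t * κ ^ (-t)) * m ^ (1 - t) := by gcongr
    _ = κ ^ (-t) * ((m ^ t * m ^ (1 - t)) * N ^ (((d : ℝ) + 1) / q)) := by ring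
    _ = _ := by rw [h5]

theorem low_holds : LOW := by
  intro d hd q κ hq hκ
  have hq0 : 0 < q := by linarith
  set v : ℝ≥0∞ := volume (Metric.ball (0 : Rn (d + 1)) 1) with hv
  have hv0 : v ≠ 0 := (Metric.measure_ball_pos volume _ one_pos).ne'
  have hvt : v ≠ ∞ := measure_ball_lt_top.ne
  set w : ℝ := v.toReal with hw
  have hw0 : 0 < w := ENNReal.toReal_pos hv0 hvt
  have hvw : v = ENNReal.ofReal w := (ENNReal.ofReal_toReal hvt).symm
  set c : ℝ := w / 2 ^ (d + 1) with hc
  have hc0 : 0 < c := by positivity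
  refine ⟨κ ^ (-(1 / (q * d))) * c ^ (-(1 / q)), by positivity, ?_⟩
  intro N hN ι _ x f hon hcard
  set m : ℝ := (Fintype.card ι : ℝ) with hm
  have hN0 : 0 < N := by linarith
  have hm0 : 0 < m := lt_of_lt_of_le (by positivity) hcard
  -- all the boxes contain the ball
  have hbox : ∀ y ∈ Metric.closedBall (0 : Rn (d + 1)) (N / 2),
      boxSum N x f (fun _ => 0) y = ENNReal.ofReal m := by
    intro y hy
    have hy' : ‖y‖ ≤ N / 2 := by simpa using hy
    unfold boxSum
    have h1 : ∀ i ∈ (Finset.univ : Finset ι),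
        (box N (nor (x i)) (f i) ((fun _ => (0 : Rn (d + 1))) i)).indicator
          (fun _ => (1 : ℝ≥0∞)) y = 1 := by
      intro i _
      apply indicator_of_mem
      have hnorm := (hon i).1
      have he : ‖nor (x i)‖ = 1 := by
        have := hnorm 0
        rwa [Fin.cons_zero] at this
      have hf : ∀ j, ‖f i j‖ = 1 := by
        intro j
        have := hnorm j.succ
        rwa [Fin.cons_succ] at this
      have hin : ∀ z : Rn (d + 1), ‖z‖ = 1 → |inner ℝ z (y - 0)| ≤ N / 2 := by
        intro z hz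
        have := abs_real_inner_le_norm z (y - 0)
        rw [hz, one_mul, sub_zero] at this
        rw [sub_zero]
        linarith
      refine ⟨(hin _ he).trans (by nlinarith), fun j => hin _ (hf j)⟩
    rw [Finset.sum_congr rfl h1, Finset.sum_const, Finset.card_univ, nsmul_eq_mul, mul_one, hm,
      ENNReal.ofReal_natCast]
  have hvol : volume (Metric.closedBall (0 : Rn (d + 1)) (N / 2)) =
      ENNReal.ofReal (c * N ^ (d + 1)) := by
    rw [Measure.addHaar_closedBall _ _ (by positivity), finrank_euclideanSpace_fin, ← hv, hvw,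
      ← ENNReal.ofReal_mul (by positivity)]
    congr 1
    rw [hc, div_pow]
    ring
  have hint : ENNReal.ofReal (m ^ q * (c * N ^ (d + 1))) ≤
      ∫⁻ y, boxSum N x f (fun _ => 0) y ^ q := by
    calc ENNReal.ofReal (m ^ q * (c * N ^ (d + 1)))
        = ∫⁻ _y in Metric.closedBall (0 : Rn (d + 1)) (N / 2), ENNReal.ofReal m ^ q := by
          rw [setLIntegral_const, hvol, ENNReal.ofReal_rpow_of_nonneg hm0.le hq0.le,
            ← ENNReal.ofReal_mul (by positivity)]
      _ = ∫⁻ y in Metric.closedBall (0 : Rn (d + 1)) (N / 2),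
            boxSum N x f (fun _ => 0) y ^ q := by
          refine setLIntegral_congr_fun Metric.isClosed_closedBall.measurableSet ?_
          intro y hy
          show _ = boxSum N x f (fun _ => 0) y ^ q
          rw [hbox y hy]
      _ ≤ _ := setLIntegral_le_lintegral _ _
  have hroot : ENNReal.ofReal (m * (c ^ (1 / q) * N ^ (((d : ℝ) + 1) / q))) ≤
      (∫⁻ y, boxSum N x f (fun _ => 0) y ^ q) ^ (1 / q) := by
    refine le_trans (le_of_eq ?_) (ENNReal.rpow_le_rpow hint (by positivity : 0 ≤ 1 / q))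
    rw [ENNReal.ofReal_rpow_of_nonneg (by positivity) (by positivity)]
    congr 1
    rw [Real.mul_rpow (by positivity) (by positivity), Real.mul_rpow (by positivity) (by positivity),
      ← Real.rpow_mul hm0.le, mul_one_div_cancel hq0.ne', Real.rpow_one, ← Real.rpow_natCast,
      ← Real.rpow_mul hN0.le]
    congr 3
    push_cast
    ring
  refine le_trans ?_ (mul_le_mul_right hroot _)
  rw [← ENNReal.ofReal_mul (by positivity)]
  refine ENNReal.ofReal_le_ofReal ((low_real hd hq hκ hN hcard).trans (le_of_eq ?_))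
  have h6 : c ^ (-(1 / q)) * c ^ (1 / q) = 1 := by
    rw [← Real.rpow_add hc0, neg_add_cancel, Real.rpow_zero]
  calc κ ^ (-(1 / (q * d))) * (m * N ^ (((d : ℝ) + 1) / q))
      = κ ^ (-(1 / (q * d))) * (c ^ (-(1 / q)) * c ^ (1 / q)) * (m * N ^ (((d : ℝ) + 1) / q)) := by
        rw [h6, mul_one]
    _ = _ := by ring

end Pool.Agent.N484.KP
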