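import Mathlib
import Pool.Agent.N484.KP.Stm
set_option autoImplicit false

/-! KP/SCALE: scaling of the bilinear inequality. -/

namespace Pool.Agent.N484.KP

open MeasureTheory Set
open scoped ENNReal

theorem lint_smul {n : ℕ} (l : ℝ) (hl : 0 < l) (h : KC.E n → ℝ≥0∞) :
    ∫⁻ x, h x = ENNReal.ofReal (l ^ n) * ∫⁻ x, h (l • x) := by
  have h1 : ∫⁻ x, h (l • x) = ∫⁻ y, h y ∂(Measure.map (fun x : KC.E n => l • x) volume) := by
    have := lintegral_map_equiv (μ := (volume : Measure (KC.E n))) h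
      (Homeomorph.smulOfNeZero l hl.ne').toMeasurableEquiv
    exact this.symm
  rw [h1]
  have h2 := Measure.map_addHaar_smul (volume : Measure (KC.E n)) hl.ne'
  have h3 : (Measure.map (fun x : KC.E n => l • x) volume) =
      ENNReal.ofReal |(l ^ n)⁻¹| • (volume : Measure (KC.E n)) := by
    rw [finrank_euclideanSpace_fin] at h2
    exact h2
  rw [h3, lintegral_smul_measure, smul_eq_mul, ← mul_assoc, ← ENNReal.ofReal_mul (by positivity),
    abs_of_pos (by positivity), mul_inv_cancel₀ (by positivity), ENNReal.ofReal_one, one_mul]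

theorem nr_smul {n : ℕ} (l : ℝ) (hl : 0 < l) (p : ℝ) (hp : 0 < p) (F : KC.E n → ℝ≥0∞) :
    KC.nr p (fun x => F (l • x)) = ENNReal.ofReal (l ^ (-(n : ℝ) * (1 / p))) * KC.nr p F := by
  unfold KC.nr
  have h1 := lint_smul l hl (fun x : KC.E n => F x ^ p)
  rw [h1, ENNReal.mul_rpow_of_nonneg _ _ (by positivity), ← mul_assoc,
    ENNReal.ofReal_rpow_of_nonneg (by positivity) (by positivity), ← ENNReal.ofReal_mul (by positivity),
    ← Real.rpow_natCast, ← Real.rpow_mul hl.le, ← Real.rpow_add hl]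
  rw [show -(n : ℝ) * (1 / p) + (n : ℝ) * (1 / p) = 0 by ring, Real.rpow_zero, ENNReal.ofReal_one,
    one_mul]

theorem scale_holds : SCALE := by
  intro n q A M l hl hq hM hT F G hF hG
  have hsm : Measurable fun x : KC.E n => l • x := measurable_const_smul l
  have h1 := hT (fun x => F (l • x)) (fun x => G (l • x)) (hF.comp hsm) (hG.comp hsm)
  have hp := KC.dq_pos hq
  rw [nr_smul l hl _ hp, nr_smul l hl _ hp, KC.dq_inv hq] at h1
  have h2 : ∀ u : KC.E n, KC.cv F G (l • u) =
      ENNReal.ofReal (l ^ n) * KC.cv (fun x => F (l • x)) (fun x => G (l • x)) u := by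
    intro u
    unfold KC.cv
    rw [lint_smul l hl (fun y => F y * G (l • u - y))]
    simp only [smul_sub]
  rw [lint_smul l hl]
  simp only [h2, smul_smul, inv_mul_cancel₀ hl.ne', one_smul]
  have h3 : ∫⁻ x, ENNReal.ofReal (l ^ n) *
      KC.cv (fun x => F (l • x)) (fun x => G (l • x)) x * M x =
      ENNReal.ofReal (l ^ n) * ∫⁻ x, KC.cv (fun x => F (l • x)) (fun x => G (l • x)) x * M x := by
    have hm : Measurable fun x : KC.E n =>
        KC.cv (fun x => F (l • x)) (fun x => G (l • x)) x * M x :=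
      (KC.cv_meas (hF.comp hsm) (hG.comp hsm)).mul hM
    rw [← lintegral_const_mul _ hm]
    exact lintegral_congr fun x => mul_assoc _ _ _
  rw [h3]
  set T : ℝ≥0∞ := ENNReal.ofReal (l ^ n) with hTdef
  set U : ℝ≥0∞ := ENNReal.ofReal (l ^ (-(n : ℝ) * (1 - 1 / (2 * q)))) with hU
  have h4 : T * T * (U * U) = ENNReal.ofReal (l ^ ((n : ℝ) / q)) := by
    rw [hTdef, hU, ← ENNReal.ofReal_mul (by positivity), ← ENNReal.ofReal_mul (by positivity),
      ← ENNReal.ofReal_mul (by positivity), ← Real.rpow_natCast, ← Real.rpow_add hl,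
      ← Real.rpow_add hl, ← Real.rpow_add hl]
    congr 2
    field_simp
    ring
  calc T * (T * ∫⁻ x, KC.cv (fun x => F (l • x)) (fun x => G (l • x)) x * M x)
      ≤ T * (T * (A * (U * KC.nr (KC.dq q) F) * (U * KC.nr (KC.dq q) G))) := by gcongr
    _ = T * T * (U * U) * A * KC.nr (KC.dq q) F * KC.nr (KC.dq q) G := by ring
    _ = _ := by rw [h4]

end Pool.Agent.N484.KP
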