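import Mathlib
import Pool.Agent.N484.KP.Stm
set_option autoImplicit false

/-! KP/SEP: the normals of the paraboloid separate its points. -/

namespace Pool.Agent.N484.KP

open MeasureTheory Set
open scoped ENNReal

theorem nv_cast {d : ℕ} (z : Rn (d + 1)) (j : Fin d) : nv z j.castSucc = -2 * z j.castSucc := by
  show (Fin.snoc (fun j : Fin d => -2 * z j.castSucc) (1 : ℝ) : Fin (d + 1) → ℝ) j.castSucc = _
  rw [Fin.snoc_castSucc]

theorem nv_last {d : ℕ} (z : Rn (d + 1)) : nv z (Fin.last d) = 1 := by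
  show (Fin.snoc (fun j : Fin d => -2 * z j.castSucc) (1 : ℝ) : Fin (d + 1) → ℝ) (Fin.last d) = _
  rw [Fin.snoc_last]

theorem coord_le {n : ℕ} (z : Rn n) (i : Fin n) : |z i| ≤ ‖z‖ := by
  have := PiLp.norm_apply_le z i
  rwa [Real.norm_eq_abs] at this

theorem sep_holds : SEP := by
  intro d x y hx hy
  obtain ⟨hx1, hx2⟩ := hx
  obtain ⟨hy1, hy2⟩ := hy
  have hnv : ∀ z : Rn (d + 1), ‖nv z‖ ^ 2 = 1 + 4 * ∑ j : Fin d, z j.castSucc ^ 2 := by
    intro z
    rw [EuclideanSpace.real_norm_sq_eq, Fin.sum_univ_castSucc, nv_last, Finset.mul_sum]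
    rw [Finset.sum_congr rfl (fun j _ => by rw [nv_cast])]
    rw [add_comm, one_pow]
    congr 1
    exact Finset.sum_congr rfl fun j _ => by ring
  have hvw : ‖nv x - nv y‖ ^ 2 = 4 * ∑ j : Fin d, (x j.castSucc - y j.castSucc) ^ 2 := by
    rw [EuclideanSpace.real_norm_sq_eq, Fin.sum_univ_castSucc]
    simp only [PiLp.sub_apply, nv_last, nv_cast, sub_self]
    rw [Finset.mul_sum]
    rw [show (0 : ℝ) ^ 2 = 0 by norm_num, add_zero]
    exact Finset.sum_congr rfl fun j _ => by ring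
  have hxy : ‖x - y‖ ^ 2 = ∑ j : Fin d, (x j.castSucc - y j.castSucc) ^ 2 +
      (x (Fin.last d) - y (Fin.last d)) ^ 2 := by
    rw [EuclideanSpace.real_norm_sq_eq, Fin.sum_univ_castSucc]
    simp only [PiLp.sub_apply]
  set P : ℝ := ∑ j : Fin d, (x j.castSucc - y j.castSucc) ^ 2 with hP
  have hP0 : 0 ≤ P := Finset.sum_nonneg fun j _ => sq_nonneg _
  have hcs : (x (Fin.last d) - y (Fin.last d)) ^ 2 ≤ P * 4 := by
    have h1 : x (Fin.last d) - y (Fin.last d) =
        ∑ j : Fin d, (x j.castSucc - y j.castSucc) * (x j.castSucc + y j.castSucc) := by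
      rw [hx1, hy1, ← Finset.sum_sub_distrib]
      exact Finset.sum_congr rfl fun j _ => by ring
    rw [h1]
    refine (Finset.sum_mul_sq_le_sq_mul_sq _ _ _).trans ?_
    refine mul_le_mul_of_nonneg_left ?_ hP0
    calc ∑ j : Fin d, (x j.castSucc + y j.castSucc) ^ 2
        ≤ ∑ j : Fin d, (2 * x j.castSucc ^ 2 + 2 * y j.castSucc ^ 2) :=
          Finset.sum_le_sum fun j _ => by nlinarith [sq_nonneg (x j.castSucc - y j.castSucc)]
      _ = 2 * x (Fin.last d) + 2 * y (Fin.last d) := by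
          rw [Finset.sum_add_distrib, ← Finset.mul_sum, ← Finset.mul_sum, hx1, hy1]
      _ ≤ 4 := by linarith
  have h98 : ‖x - y‖ ≤ 9 / 8 * ‖nv x - nv y‖ := by
    have h2 : ‖x - y‖ ^ 2 ≤ (9 / 8 * ‖nv x - nv y‖) ^ 2 := by
      rw [mul_pow, hvw, hxy]; nlinarith
    exact le_of_sq_le_sq h2 (by positivity)
  -- the norms of the normal vectors
  have hb : ∀ z : Rn (d + 1), z (Fin.last d) = ∑ j : Fin d, z j.castSucc ^ 2 →
      z (Fin.last d) ≤ 1 → 1 ≤ ‖nv z‖ ∧ ‖nv z‖ ≤ 9 / 4 := by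
    intro z hz1 hz2
    have h3 := hnv z
    rw [← hz1] at h3
    have h4 : 0 ≤ z (Fin.last d) := by rw [hz1]; exact Finset.sum_nonneg fun j _ => sq_nonneg _
    have h5 := norm_nonneg (nv z)
    constructor
    · nlinarith
    · nlinarith
  obtain ⟨ha1, ha2⟩ := hb x hx1 hx2
  obtain ⟨hb1, hb2⟩ := hb y hy1 hy2
  set a : ℝ := ‖nv x‖ with ha
  set b : ℝ := ‖nv y‖ with hbb
  have ha0 : a ≠ 0 := by linarith
  have hb0 : b ≠ 0 := by linarith
  have hlast : |a⁻¹ - b⁻¹| ≤ ‖nor x - nor y‖ := by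
    have h6 := coord_le (nor x - nor y) (Fin.last d)
    have h7 : (nor x - nor y) (Fin.last d) = a⁻¹ - b⁻¹ := by
      simp only [nor, PiLp.sub_apply, PiLp.smul_apply, smul_eq_mul, nv_last, mul_one]
      rfl
    rwa [h7] at h6
  have hab : |a - b| ≤ 81 / 16 * ‖nor x - nor y‖ := by
    have h8 : a - b = -(a * b * (a⁻¹ - b⁻¹)) := by field_simp; ring
    rw [h8, abs_neg, abs_mul, abs_of_nonneg (by positivity : 0 ≤ a * b)]
    have h9 : a * b ≤ 81 / 16 := by nlinarith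
    exact mul_le_mul h9 hlast (abs_nonneg _) (by norm_num)
  have hdec : nv x - nv y = a • (nor x - nor y) + (a - b) • nor y := by
    have e1 : a • nor x = nv x := by
      show a • (a⁻¹ • nv x) = nv x
      rw [smul_smul, mul_inv_cancel₀ ha0, one_smul]
    have e2 : b • nor y = nv y := by
      show b • (b⁻¹ • nv y) = nv y
      rw [smul_smul, mul_inv_cancel₀ hb0, one_smul]
    rw [smul_sub, sub_smul, e1, e2]
    abel
  have hng : ‖nor y‖ = 1 := by
    show ‖b⁻¹ • nv y‖ = 1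
    rw [norm_smul, norm_inv, Real.norm_of_nonneg (by linarith : (0 : ℝ) ≤ b), ← hbb,
      inv_mul_cancel₀ hb0]
  have h10 : ‖nv x - nv y‖ ≤ a * ‖nor x - nor y‖ + |a - b| := by
    rw [hdec]
    refine (norm_add_le _ _).trans ?_
    rw [norm_smul, norm_smul, hng, mul_one, Real.norm_of_nonneg (by linarith : (0 : ℝ) ≤ a),
      Real.norm_eq_abs]
  have h11 := norm_nonneg (nor x - nor y)
  nlinarith

end Pool.Agent.N484.KP
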