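import Pool.Agent.N623.NA.Stm

/-!
Project NA (helper623), task TEN: the string tension of a log-concave double sequence (helper866).
-/

set_option autoImplicit false

namespace Pool.Agent.N866.NA_TEN

open Filter Topology

lemma step {g : ℕ → ℝ} (h0 : g 0 = 0) (hg : ∀ n, g n + g (n + 2) ≤ 2 * g (n + 1)) (n : ℕ) :
    (n : ℝ) * g (n + 1) ≤ ((n : ℝ) + 1) * g n := by
  induction n with
  | zero => simp [h0]
  | succ n ih =>
    have h1 := mul_le_mul_of_nonneg_left (hg n) (by positivity : (0 : ℝ) ≤ (n : ℝ) + 1)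
    push_cast
    show ((n : ℝ) + 1) * g (n + 2) ≤ ((n : ℝ) + 1 + 1) * g (n + 1)
    linarith

lemma anti {g : ℕ → ℝ} (h0 : g 0 = 0) (hg : ∀ n, g n + g (n + 2) ≤ 2 * g (n + 1)) {m n : ℕ}
    (hm : 1 ≤ m) (hmn : m ≤ n) : (m : ℝ) * g n ≤ n * g m := by
  induction n, hmn using Nat.le_induction with
  | base => exact le_rfl
  | succ n hn ih =>
    have h1 := step h0 hg n
    have hn1 : (1 : ℝ) ≤ n := by exact_mod_cast hm.trans hn
    have hm0 : (0 : ℝ) ≤ m := by positivity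
    have h2 := mul_le_mul_of_nonneg_left h1 hm0
    have h3 := mul_le_mul_of_nonneg_left ih (by linarith : (0 : ℝ) ≤ (n : ℝ) + 1)
    push_cast
    refine le_of_mul_le_mul_left ?_ (by linarith : (0 : ℝ) < n)
    nlinarith

theorem main : Pool.Agent.N623.NA.S_TEN := by
  intro w hpos hle ha0 hb0 hcb hca
  obtain ⟨f, hf⟩ : ∃ f : ℕ → ℕ → ℝ, ∀ a b, f a b = -Real.log (w a b) := ⟨_, fun _ _ => rfl⟩
  have hf0 : ∀ a b, 0 ≤ f a b := fun a b => by
    rw [hf]
    have := Real.log_nonpos (hpos a b).le (hle a b)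
    linarith
  have hfa : ∀ a, f a 0 = 0 := fun a => by rw [hf, ha0, Real.log_one, neg_zero]
  have hfb : ∀ b, f 0 b = 0 := fun b => by rw [hf, hb0, Real.log_one, neg_zero]
  have hlog : ∀ x y z : ℝ, 0 < x → 0 < y → 0 < z → y ^ 2 ≤ x * z →
      -Real.log x + -Real.log z ≤ 2 * -Real.log y := by
    intro x y z hx hy hz h
    have h1 := Real.log_le_log (by positivity) h
    rw [Real.log_pow, Real.log_mul hx.ne' hz.ne'] at h1
    push_cast at h1
    linarith
  have hc1 : ∀ a n, f a n + f a (n + 2) ≤ 2 * f a (n + 1) := fun a n => by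
    simp only [hf]
    exact hlog _ _ _ (hpos _ _) (hpos _ _) (hpos _ _) (hcb a n)
  have hc2 : ∀ b n, f n b + f (n + 2) b ≤ 2 * f (n + 1) b := fun b n => by
    simp only [hf]
    exact hlog _ _ _ (hpos _ _) (hpos _ _) (hpos _ _) (hca n b)
  obtain ⟨F, hF⟩ : ∃ F : ℕ × ℕ → ℝ, ∀ p : ℕ × ℕ, F p =
      f (p.1 + 1) (p.2 + 1) / (((p.1 : ℝ) + 1) * ((p.2 : ℝ) + 1)) := ⟨_, fun _ => rfl⟩
  have hFnn : ∀ p, 0 ≤ F p := fun p => by
    rw [hF]
    exact div_nonneg (hf0 _ _) (by positivity)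
  have hbdd : BddBelow (Set.range F) := ⟨0, by rintro _ ⟨p, rfl⟩; exact hFnn p⟩
  -- comparison of the quotients
  have hmono : ∀ a b a' b' : ℕ, 1 ≤ a → a ≤ a' → 1 ≤ b → b ≤ b' →
      f a' b' / ((a' : ℝ) * b') ≤ f a b / ((a : ℝ) * b) := by
    intro a b a' b' h1 h2 h3 h4
    have ha : (1 : ℝ) ≤ a := by exact_mod_cast h1
    have hb : (1 : ℝ) ≤ b := by exact_mod_cast h3
    have ha' : (1 : ℝ) ≤ a' := by exact_mod_cast h1.trans h2
    have hb' : (1 : ℝ) ≤ b' := by exact_mod_cast h3.trans h4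
    have k1 : (b : ℝ) * f a' b' ≤ b' * f a' b := anti (hfa a') (hc1 a') h3 h4
    have k2 : (a : ℝ) * f a' b ≤ a' * f a b := anti (g := fun n => f n b) (hfb b) (hc2 b) h1 h2
    rw [div_le_div_iff₀ (by positivity) (by positivity)]
    have k3 := mul_le_mul_of_nonneg_left k1 (by linarith : (0 : ℝ) ≤ a)
    have k4 := mul_le_mul_of_nonneg_left k2 (by linarith : (0 : ℝ) ≤ b')
    nlinarith
  have hs0 : 0 ≤ ⨅ p, F p := Real.iInf_nonneg hFnn
  have hsle : ∀ a b : ℕ, 1 ≤ a → 1 ≤ b → (⨅ p, F p) ≤ f a b / ((a : ℝ) * b) := by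
    intro a b h1 h2
    obtain ⟨a, rfl⟩ := Nat.exists_eq_add_of_le' h1
    obtain ⟨b, rfl⟩ := Nat.exists_eq_add_of_le' h2
    have := ciInf_le hbdd (a, b)
    rw [hF] at this
    push_cast
    exact this
  refine ⟨⨅ p, F p, hs0, fun a b => ?_, ?_⟩
  · rcases Nat.eq_zero_or_pos a with rfl | ha
    · rw [hb0]; simp
    rcases Nat.eq_zero_or_pos b with rfl | hb
    · rw [ha0]; simp
    have h1 := hsle a b ha hb
    have ha' : (1 : ℝ) ≤ a := by exact_mod_cast ha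
    have hb' : (1 : ℝ) ≤ b := by exact_mod_cast hb
    rw [le_div_iff₀ (by positivity), hf] at h1
    rw [← Real.log_le_iff_le_exp (hpos a b)]
    linarith
  · rw [Metric.tendsto_atTop]
    intro ε hε
    obtain ⟨p, hp⟩ := exists_lt_of_ciInf_lt (lt_add_of_pos_right (⨅ p, F p) hε)
    refine ⟨(p.1 + 1, p.2 + 1), fun q hq => ?_⟩
    obtain ⟨q1, q2⟩ := q
    obtain ⟨hq1, hq2⟩ := Prod.mk_le_mk.1 hq
    have h1 := hsle q1 q2 (by omega) (by omega)
    have h2 := hmono (p.1 + 1) (p.2 + 1) q1 q2 (by omega) hq1 (by omega) hq2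
    rw [hF] at hp
    push_cast at h2
    rw [Real.dist_eq, abs_lt, ← hf]
    constructor <;> linarith

end Pool.Agent.N866.NA_TEN
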